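import Pool.Agent.H433Z.FSMain

set_option autoImplicit false

open Pool.Agent.H433Z.FS

theorem Pool.Agent.Results.MP_f0f681_an.ANotConjClosed.result :
    ∃ (G : Type) (_ : Group G), HasBadSubalgebra (delta : G → CStar G) := by
  obtain ⟨B, h1, h2, h3, h4, φ, hφ, h5⟩ := main
  exact ⟨GG, inferInstance, B, h1, ⟨h2, h3, h4⟩, fun h => h5 (h φ hφ)⟩
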